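import Pool.Agent.H7.GV.Stmts
import Pool.Agent.H46.GU.BDAgen

/-!
Board gv9 (MP_fd41b2_co), row BDA9, helper46.
-/

set_option autoImplicit false

open Finset

namespace Pool.GV7

open Pool.Agent.H23.KT Pool.Agent.H46.KW Pool.KQ Pool.GT7 Pool.GU7

theorem BDA9_thm (hSPL : SPLStmt) (hNUB : NUB9Stmt) (hZYG : ZYGStmt) (hTTR : TTRStmt) :
    BDA9Stmt := by
  intro p w r hP
  obtain ⟨K₁, hK₁, a₂, hN⟩ := hNUB p w r hP.w1
  have hp0 : (0 : ℝ) ≤ (p : ℝ) := Nat.cast_nonneg _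
  have hr : r ≤ p + 3 := by have := hP.rb; omega
  refine BDA_gen hSPL hZYG hTTR p w r 3 (m9 p) (2 / 3)
    (2 / 3 - 1 / (12 * ((p : ℝ) + 2))) hr ?_ ?_ (15 * r) ?_ K₁ hK₁ a₂ ?_
  · unfold m9
    linarith
  · have : 1 / (12 * ((p : ℝ) + 2)) ≤ 1 / 24 :=
      one_div_le_one_div_of_le (by norm_num) (by linarith)
    linarith
  · intro a ha
    have haR : (15 * (r : ℝ)) ≤ (a : ℝ) := by exact_mod_cast ha
    have ha0 : (0 : ℝ) ≤ (a : ℝ) := Nat.cast_nonneg _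
    have h1 : 1 / (8 * ((p : ℝ) + 3) ^ 2) ≤ 1 / 72 :=
      one_div_le_one_div_of_le (by norm_num) (by nlinarith)
    have h2 : ((p : ℝ) + 2) * (2 / 3 - 1 / (12 * ((p : ℝ) + 2))) =
        2 / 3 * ((p : ℝ) + 2) - 1 / 12 := by
      field_simp
    calc (m9 p + 1 + 1 / (8 * ((p : ℝ) + 3) ^ 2)) * a + r
        ≤ (m9 p + 1 + 1 / 72) * a + 1 / 15 * a := by
          have := mul_le_mul_of_nonneg_right h1 ha0
          nlinarith
      _ ≤ (2 / 3 * ((p : ℝ) + 2) - 1 / 12) * a := by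
          unfold m9
          nlinarith
      _ = (((p : ℝ) + 2) * (2 / 3 - 1 / (12 * ((p : ℝ) + 2)))) * a := by rw [h2]
      _ = _ := by ring
  · intro a ha n hn
    obtain ⟨h1, h2⟩ := hN a ha n hn
    refine ⟨fun h => ?_, h2⟩
    have h3 := h1 h
    have e1 : (2 / 3 : ℝ) * (a : ℝ) = 2 * (a : ℝ) / 3 := by ring
    rw [e1]
    exact h3

end Pool.GV7
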